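import Pool.Agent.Helper2_Pak.StmtsP

/-!
# Module P3: the instance
-/

namespace Pool.Agent.Helper2_Pak.H69

open Pool.Agent.Helper2_Pack (Polygon Motion region IsSimple SameShape)

/-- translations commute with interiors -/
lemma interior_add_image (s : ℂ) (A : Set ℂ) :
    interior ((fun z : ℂ => z + s) '' A) = (fun z : ℂ => z + s) '' interior A := by
  have := (Homeomorph.addRight s).image_interior A
  simpa using this.symm

lemma m_ge {m : ℕ} {G : Lay} (h : Small ((1 / 2) ^ m) G) : 60 ≤ m := by
  by_contra hm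
  push Not at hm
  have h1 := h.small
  have h2 : ((1 : ℝ) / 2) ^ 60 ≤ (1 / 2) ^ m :=
    pow_le_pow_of_le_one (by norm_num) (by norm_num) hm.le
  have h3 : (2 : ℝ) ^ 120 ≤ 2 ^ (32 * G.K + 120) :=
    pow_le_pow_right₀ (by norm_num) (by omega)
  have h4 : ((1 : ℝ) / 2) ^ 60 * 2 ^ 120 ≤ (1 / 2) ^ m * 2 ^ (32 * G.K + 120) :=
    mul_le_mul h2 h3 (by positivity) (by positivity)
  have h5 : ((1 : ℝ) / 2) ^ 60 * 2 ^ 120 = 2 ^ 60 := by norm_num
  have h6 : (1 : ℝ) < 2 ^ 60 := by norm_num
  linarith

/-- Module P3. -/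
theorem p3 (h1 : P1Stmt) (h2 : P2Stmt) (h6 : Helper2_Pack.P6Stmt) : P3Stmt := by
  intro m G hG hS
  have hm := m_ge hS
  obtain ⟨s1, s2⟩ := h1 m hm
  obtain ⟨c1, c2⟩ := h2 m G hG hS
  set t : ℝ := (1 / 2) ^ m with ht
  set P := shapePoly ((1 / 2) ^ m) with hP
  set C := G.contPoly ((1 / 2) ^ m) with hC
  set sp : ℚ := shift 8 ((1 / 2) ^ m) with hsp
  set sc : ℚ := shift G.T ((1 / 2) ^ m) with hsc
  obtain ⟨p1, p2⟩ := h6 P sp sp s1
  obtain ⟨q1, q2⟩ := h6 C sc sc c1
  have hI : inst m G = ⟨translate sc C, List.replicate G.K (translate sp P)⟩ := rfl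
  have htP : translate sp P = P.map fun p => (p.1 + sp, p.2 + sp) := rfl
  have htC : translate sc C = C.map fun p => (p.1 + sc, p.2 + sc) := rfl
  have hlen : (inst m G).pieces.length = G.K := by
    rw [hI]
    exact List.length_replicate
  have hget : ∀ i, (inst m G).pieces.get i = translate sp P := by
    intro i
    exact List.eq_of_mem_replicate (List.get_mem (inst m G).pieces i)
  have hrP : region (translate sp P) = (fun z : ℂ => z + ⟨sp, sp⟩) '' shape t := by
    rw [htP, p2, s2]
  have hrC : region (inst m G).container = (fun z : ℂ => z + ⟨sc, sc⟩) '' G.cont t := by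
    show region (translate sc C) = _
    rw [htC, q2, c2]
  set a : ℂ := ⟨sp, sp⟩ with ha
  set b : ℂ := ⟨sc, sc⟩ with hb
  -- the image of a piece
  have himg : ∀ φ : Motion, φ.app '' region (translate sp P) =
      (fun z : ℂ => z + b) '' tile t ⟨φ.u, φ.u * a + φ.v - b, φ.unit⟩ := by
    intro φ
    rw [hrP]
    unfold tile
    rw [Set.image_image, Set.image_image]
    refine Set.image_congr fun z _ => ?_
    simp only [Helper2_Pack.Motion.app]
    ring
  have hinj : Function.Injective (fun z : ℂ => z + b) := add_left_injective b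
  have e : Cell G ≃ Fin (inst m G).pieces.length :=
    (Fintype.equivFin (Cell G)).trans (finCongr hlen.symm)
  refine ⟨⟨?_, ?_⟩, ⟨?_, ?_⟩, ?_⟩
  · rintro ⟨φ, hφ1, hφ2⟩
    refine ⟨⟨fun i => ⟨(φ (e i)).u, (φ (e i)).u * a + (φ (e i)).v - b, (φ (e i)).unit⟩, ?_, ?_⟩⟩
    · intro i
      have h := hφ1 (e i)
      rw [hget, himg, hrC] at h
      exact (Set.image_subset_image_iff hinj).1 h
    · intro i j hij
      have h := hφ2 (e i) (e j) (fun h => hij (e.injective h))
      rw [hget, hget, himg, himg, interior_add_image, interior_add_image] at h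
      exact (Set.disjoint_image_iff hinj).1 h
  · rintro ⟨p⟩
    have hg : ∀ g : Motion, (⟨g.u, g.u * a + (g.v + b - g.u * a) - b, g.unit⟩ : Motion) = g := by
      intro g
      have hv : g.u * a + (g.v + b - g.u * a) - b = g.v := by ring
      cases g
      simp only at hv ⊢
      rw [hv]
    refine ⟨fun i => ⟨(p.g (e.symm i)).u, (p.g (e.symm i)).v + b - (p.g (e.symm i)).u * a,
      (p.g (e.symm i)).unit⟩, ?_, ?_⟩
    · intro i
      rw [hget, himg, hrC]
      dsimp only
      rw [hg]
      exact Set.image_mono (p.sub _)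
    · intro i j hij
      rw [hget, hget, himg, himg, interior_add_image, interior_add_image]
      dsimp only
      rw [hg, hg]
      exact (Set.disjoint_image_iff hinj).2 (p.disj _ _ (fun h => hij (e.symm.injective h)))
  · show IsSimple (translate sc C)
    rw [htC]
    exact q1
  · intro Q hQ
    rw [List.eq_of_mem_replicate (show Q ∈ List.replicate G.K (translate sp P) from hQ), htP]
    exact p1
  · refine ⟨fun _ => 0, fun i j _ => ?_⟩
    rw [hget, hget]
    refine ⟨⟨1, 0, by simp⟩, ?_⟩
    have : (⟨1, 0, by simp⟩ : Motion).app = id := by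
      funext z
      simp [Helper2_Pack.Motion.app]
    rw [this, Set.image_id]

end Pool.Agent.Helper2_Pak.H69
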