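import Pool.Agent.Helper2_Pak.Stmts

/-!
# Module R4: the parity of the orientations
-/

namespace Pool.Agent.Helper2_Pak.H69

open Pool.Agent.Helper2_Pack (Motion)

/-- a column has at most as many cells as there are cells -/
lemma top_le_K (G : Lay) (c : ℕ) (hc : c < G.M) : G.top c ≤ G.K := by
  have h : Fintype.card (Fin (G.top c)) ≤ Fintype.card (Cell G) := by
    refine Fintype.card_le_of_injective
      (fun r : Fin (G.top c) => (Sum.inl ⟨⟨c, hc⟩, r⟩ : Cell G)) ?_
    intro a b hab
    simpa using hab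
  simpa [Lay.K] using h

/-- there are at most as many columns as cells -/
lemma M_le_K (G : Lay) : G.M ≤ G.K := by
  have h : Fintype.card (Fin G.M) ≤ Fintype.card (Cell G) := by
    refine Fintype.card_le_of_injective
      (fun c : Fin G.M => (Sum.inl ⟨c, ⟨0, by unfold Lay.top Lay.N; omega⟩⟩ : Cell G)) ?_
    intro a b hab
    simp only [Sum.inl.injEq, Sigma.mk.injEq] at hab
    exact hab.1
  simpa [Lay.K] using h

lemma dr2_le (G : Lay) (r : ℕ) : ∀ c, (G.dr c r).2 ≤ c
  | 0 => by simp [Lay.dr]
  | c + 1 => by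
    have ih := dr2_le G r c
    rw [Lay.dr]
    split_ifs <;> simp <;> omega

lemma pq_nonneg (t : ℝ) (ht : 0 < t) (b : Bool) : 0 ≤ pq t b := by
  unfold pq
  split_ifs <;> positivity

lemma two_HX (t : ℝ) (k : ℕ) :
    2 * HX t k = 1 + (if decide (k % 2 = 1) = true then (1 : ℝ) else 0) * t ^ 2 := by
  unfold HX hh
  rcases Nat.mod_two_eq_zero_or_one k with h | h
  · simp [h]
  · simp only [h, one_ne_zero, if_false, decide_true, if_true]
    ring

lemma two_HY (t : ℝ) (k : ℕ) :
    2 * HY t k = 1 + t ^ 2 - (if decide (k % 2 = 1) = true then (1 : ℝ) else 0) * t ^ 2 := by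
  unfold HY hh
  rcases Nat.mod_two_eq_zero_or_one k with h | h
  · simp [h]
    ring
  · simp [h]

/-- Module R4. -/
theorem r4 (h1 : R1Stmt) (h2 : R2Stmt) (h3 : R3Stmt) (hg : G1Stmt) : R4Stmt := by
  intro t G g k L kL hOK hS hA
  obtain ⟨ht1, hKt, hK1, hD, hfc, hsum⟩ := hg t G hOK hS
  have ht : 0 < t := hS.pos
  obtain ⟨r1a, r1b, r1c, r1d⟩ := h1 t G g k L kL hOK hS hA
  have r2 := h2 t G g k L kL hOK hS hA
  set o : ℕ → ℕ → Bool := fun c r => decide (k c r % 2 = 1) with ho
  have hK1' : (1 : ℝ) ≤ G.K := by exact_mod_cast hK1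
  have ht2 : 0 < t ^ 2 := by positivity
  have ht3 : 0 < t ^ 3 := by positivity
  have ht4 : 0 < t ^ 4 := by positivity
  have ht8 : 0 < t ^ 8 := by positivity
  -- rows
  have row : ∀ r c, G.pres c r = true →
      (c : ℝ) - (if r % 2 = 1 then t ^ 3 else 0) + (G.cum o c r : ℝ) * t ^ 2 ≤
        lfL t (g c r) (k c r) (r + 1 / 2) := by
    intro r c
    induction c with
    | zero =>
      intro hp
      have := r1b 0 r (by simp [Lay.wallL, hp])
      simp only [Lay.cum, Nat.cast_zero, zero_mul, add_zero]
      exact_mod_cast this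
    | succ c ih =>
      intro hp
      by_cases hc : G.pres c r = true
      · have e1 := ih hc
        have e2 := r1a c r hc hp
        have e3 := (r1d c r hc).1
        have e4 := pq_nonneg t ht (penH (k c r) (k (c + 1) r))
        rw [two_HX] at e3
        have e5 : ((G.cum o (c + 1) r : ℕ) : ℝ) = (G.cum o c r : ℝ) +
            (if decide (k c r % 2 = 1) = true then (1 : ℝ) else 0) := by
          rw [Lay.cum, if_pos hc]
          push_cast
          simp [ho]
        rw [e5]
        push_cast
        linarith only [e1, e2, e3, e4]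
      · have hw : G.wallL (c + 1) r = true := by
          simp only [Lay.wallL, hp, Bool.true_and]
          simp at hc
          simp [hc]
        have := r1b (c + 1) r hw
        rw [Lay.cum, if_neg hc]
        push_cast at this ⊢
        linarith only [this]
  have Hrow : ∀ X r, G.wallR X r = true → G.cum o X r ≤ (G.dr X r).1 := by
    intro X r hw
    have hX : 0 < X := by
      simp only [Lay.wallR, Bool.and_eq_true, decide_eq_true_eq] at hw
      exact hw.1.1
    obtain ⟨c, rfl⟩ : ∃ c, X = c + 1 := ⟨X - 1, by omega⟩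
    have hp : G.pres c r = true := by
      simp only [Lay.wallR, Bool.and_eq_true, Nat.add_sub_cancel] at hw
      exact hw.1.2
    have hcM : c < G.M := by
      simp only [Lay.pres, Bool.and_eq_true, decide_eq_true_eq] at hp
      exact hp.1
    have e1 := row r c hp
    have e2 := r1c c r hw
    have e3 := (r1d c r hp).1
    rw [two_HX] at e3
    have e5 : ((G.cum o (c + 1) r : ℕ) : ℝ) = (G.cum o c r : ℝ) +
        (if decide (k c r % 2 = 1) = true then (1 : ℝ) else 0) := by
      rw [Lay.cum, if_pos hp]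
      push_cast
      simp [ho]
    have hdr : ((G.dr (c + 1) r).2 : ℝ) ≤ G.K := by
      exact_mod_cast (dr2_le G r (c + 1)).trans (le_trans hcM (M_le_K G))
    have key : ((G.cum o (c + 1) r : ℕ) : ℝ) * t ^ 2 < ((G.dr (c + 1) r).1 + 1 : ℝ) * t ^ 2 := by
      rw [e5]
      by_cases hr : r % 2 = 1
      · simp only [hr, if_true] at e1 e2
        unfold Lay.rw Lay.D at e2
        have : ((G.dr (c + 1) r).2 : ℝ) * t ^ 3 ≤ (G.K * t) * t ^ 2 := by
          have := mul_le_mul_of_nonneg_right hdr ht3.le
          linarith only [this, show (G.K * t) * t ^ 2 = (G.K : ℝ) * t ^ 3 by ring]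
        have h6 : (G.K * t) * t ^ 2 ≤ 1 / 2 ^ 100 * t ^ 2 :=
          mul_le_mul_of_nonneg_right hKt ht2.le
        have h7 : t ^ 3 ≤ 1 / 2 ^ 120 * t ^ 2 := by
          have := mul_le_mul_of_nonneg_right ht1 ht2.le
          linarith only [this, show t * t ^ 2 = t ^ 3 by ring]
        push_cast at e1 e2 e3 ⊢
        linarith only [ht3, e3, e1, e2, this, h6, h7]
      · simp only [hr, if_false] at e1 e2
        have : (0 : ℝ) ≤ ((G.dr (c + 1) r).1 : ℝ) * t ^ 2 := by positivity
        push_cast at e1 e2 e3 ⊢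
        linarith only [ht2, e3, e1, e2, this]
    have key2 := lt_of_mul_lt_mul_right key ht2.le
    have : G.cum o (c + 1) r < (G.dr (c + 1) r).1 + 1 := by exact_mod_cast key2
    omega
  have Hcol : ∀ c, c < G.M → ∑ r ∈ Finset.range (G.top c), (if G.spc c r then 1 else 0) ≤
      ∑ r ∈ Finset.range (G.top c), (if o c r then 1 else 0) := by
    intro c hc
    obtain ⟨c1, c2, c3, c4⟩ := r2 c hc
    have htop : 0 < G.top c := by unfold Lay.top Lay.N; omega
    -- partial sums
    have part : ∀ r, r < G.top c → G.fl t c + ∑ j ∈ Finset.range r, 2 * HY t (k c j) ≤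
        btL t (g c r) (k c r) (chX G c) := by
      intro r
      induction r with
      | zero =>
        intro _
        have := pq_nonneg t ht (!(G.kd c).isW && decide (2 ≤ k c 0))
        simp only [Finset.range_zero, Finset.sum_empty, add_zero]
        linarith only [c2, this]
      | succ r ih =>
        intro hr
        have e1 := ih (by omega)
        have e2 := c1 r hr
        have e3 := c4 r (by omega)
        have e4 := pq_nonneg t ht (penV (k c r) (k c (r + 1)))
        rw [Finset.sum_range_succ]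
        linarith only [e1, e2, e3, e4]
    have tot : G.fl t c + ∑ j ∈ Finset.range (G.top c), 2 * HY t (k c j) ≤ G.ce t c := by
      obtain ⟨m, hm⟩ : ∃ m, G.top c = m + 1 := ⟨G.top c - 1, by omega⟩
      have e1 := part m (by omega)
      have e3 := c4 m (by omega)
      have e2 := c3
      have e4 := pq_nonneg t ht ((G.kd c).isW && decide (k c (G.top c - 1) ≤ 1))
      rw [hm, Nat.add_sub_cancel] at e2 e4
      rw [hm, Finset.sum_range_succ]
      linarith
    have hsplit : ∑ j ∈ Finset.range G.N, G.nh t c j + ∑ j ∈ Finset.Ico G.N (G.top c), G.nh t c j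
        = ∑ j ∈ Finset.range (G.top c), G.nh t c j :=
      Finset.sum_range_add_sum_Ico _ (by unfold Lay.top; omega)
    have hextra : (if (G.kd c).isL || (G.kd c).isR then t ^ 4 else ((G.kd c).off : ℝ) * t ^ 8) ≤
        t ^ 4 := by
      split_ifs
      · exact le_rfl
      · have ho1 : ((G.kd c).off : ℝ) ≤ 1 := by exact_mod_cast (hOK.off c).2
        have h48 : t ^ 8 ≤ t ^ 4 := by
          have : t ^ 4 ≤ 1 := pow_le_one₀ ht.le (ht1.trans (by norm_num))
          nlinarith only [ht4, this]
        nlinarith only [h48, ht8, ho1]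
    have hnh : ∀ j ∈ Finset.range (G.top c), G.nh t c j ≤
        1 + t ^ 2 - (if G.spc c j then (1 : ℝ) else 0) * t ^ 2 + 2 * t ^ 4 := by
      intro j _
      unfold Lay.nh
      obtain ⟨d0, d1, -, -⟩ := hD c j
      by_cases hs : G.spc c j = true
      · simp only [hs, if_true]
        have hsg : ((G.sg c : ℤ) : ℝ) ≤ 1 := by
          unfold Lay.sg
          split_ifs <;> norm_num
        have hb : 0 ≤ t ^ 4 * (G.D t c j + t ^ 2 / 2) := by positivity
        have hb' : t ^ 4 * (G.D t c j + t ^ 2 / 2) ≤ t ^ 4 * 1 := by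
          apply mul_le_mul_of_nonneg_left _ ht4.le
          have : t ^ 2 ≤ 1 := pow_le_one₀ ht.le (ht1.trans (by norm_num))
          have : t ≤ 1 := ht1.trans (by norm_num)
          linarith
        nlinarith only [hb', hsg, hb]
      · simp only [hs]
        norm_num
        linarith only [ht4]
    have hsum2 := Finset.sum_le_sum hnh
    have hHY : ∑ j ∈ Finset.range (G.top c), 2 * HY t (k c j) =
        ∑ j ∈ Finset.range (G.top c), (1 + t ^ 2 -
          (if decide (k c j % 2 = 1) = true then (1 : ℝ) else 0) * t ^ 2) :=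
      Finset.sum_congr rfl fun j _ => two_HY t _
    rw [hHY] at tot
    unfold Lay.fl Lay.ce at tot
    rw [Finset.sum_sub_distrib, ← Finset.sum_mul] at tot
    rw [Finset.sum_add_distrib, Finset.sum_sub_distrib, ← Finset.sum_mul] at hsum2
    simp only [Finset.sum_const, Finset.card_range, nsmul_eq_mul] at tot hsum2
    have htK : (G.top c : ℝ) ≤ G.K := by exact_mod_cast top_le_K G c hc
    have hKt4 : (G.top c : ℝ) * (2 * t ^ 4) + t ^ 4 ≤ 1 / 2 * t ^ 2 := by
      have h5 : (G.top c : ℝ) * (2 * t ^ 4) ≤ 2 * (G.K * t) * t ^ 3 := by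
        have := mul_le_mul_of_nonneg_right htK (show (0 : ℝ) ≤ 2 * t ^ 4 by positivity)
        linarith only [this, show 2 * (G.K * t) * t ^ 3 = (G.K : ℝ) * (2 * t ^ 4) by ring]
      have h6 : 2 * (G.K * t) * t ^ 3 ≤ 2 * (1 / 2 ^ 100) * t ^ 3 := by
        have := mul_le_mul_of_nonneg_right hKt (show (0 : ℝ) ≤ 2 * t ^ 3 by positivity)
        linarith only [this]
      have h7 : t ^ 3 ≤ 1 / 2 ^ 120 * t ^ 2 := by
        have := mul_le_mul_of_nonneg_right ht1 ht2.le
        linarith only [this, show t * t ^ 2 = t ^ 3 by ring]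
      have h8 : t ^ 4 ≤ t ^ 3 := by
        have := mul_le_mul_of_nonneg_right (ht1.trans (by norm_num : (1 : ℝ) / 2 ^ 120 ≤ 1)) ht3.le
        linarith only [this, show t * t ^ 3 = t ^ 4 by ring]
      linarith only [ht3, h5, h6, h7, h8]
    have key : (∑ j ∈ Finset.range (G.top c), (if G.spc c j then (1 : ℝ) else 0)) * t ^ 2 <
        (∑ j ∈ Finset.range (G.top c), (if decide (k c j % 2 = 1) = true then (1 : ℝ) else 0) + 1) *
          t ^ 2 := by
      linarith only [ht2, hsplit, hextra, tot, hsum2, hKt4]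
    have key2 := lt_of_mul_lt_mul_right key ht2.le
    have key3 : ((∑ r ∈ Finset.range (G.top c), (if G.spc c r then 1 else 0) : ℕ) : ℝ) <
        ((∑ r ∈ Finset.range (G.top c), (if o c r then 1 else 0) : ℕ) : ℝ) + 1 := by
      push_cast
      simpa [ho] using key2
    have key4 : (∑ r ∈ Finset.range (G.top c), (if G.spc c r then 1 else 0) : ℕ) <
        (∑ r ∈ Finset.range (G.top c), (if o c r then 1 else 0) : ℕ) + 1 := by
      exact_mod_cast key3
    omega
  exact h3 G o hOK Hrow Hcol

end Pool.Agent.Helper2_Pak.H69
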