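import Pool.Agent.Helper69_Pak.T9w
import Pool.Agent.Helper91_Pack.LayGen

/-!
# Module T9: the ceilings and the walls
-/

namespace Pool.Agent.Helper2_Pak.H69

open Pool.Agent.Helper2_Pack Pool.Agent.Helper53_CookLevin Pool.Agent.Helper53_Chan
open Pool.Agent.Helper91_Pack (NG FG SG sg_first)
open Pool.Agent.Helper91_Pack

lemma translate_append (s : ℚ) (L L' : Polygon) :
    translate s (L ++ L') = translate s L ++ translate s L' := by
  unfold translate
  rw [List.map_append]

lemma translate_reverse (s : ℚ) (L : Polygon) :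
    translate s L.reverse = (translate s L).reverse := by
  unfold translate
  rw [List.map_reverse]

lemma dPoly_append (m : ℕ) (L L' : List DP) : dPoly m (L ++ L') = dPoly m L ++ dPoly m L' := by
  unfold dPoly
  rw [List.map_append]

/-- the length of the word is a number which can be generated -/
lemma ng_mOf1 : NG 1 (fun ρ : Fin 1 → List CL => mOf1 (ρ 0).length) := by
  have h : NG 1 (fun ρ : Fin 1 → List CL => (ρ 0).length) := NG.len0
  have h4 : NG 1 (fun ρ : Fin 1 → List CL => 4 * (ρ 0).length + 3) :=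
    NG.add (NG.mul (NG.const 4) h) (NG.const 3)
  have h16 : NG 1 (fun ρ : Fin 1 → List CL => 4 * (ρ 0).length + 16) :=
    NG.add (NG.mul (NG.const 4) h) (NG.const 16)
  have h8 : NG 1 (fun ρ : Fin 1 → List CL => (ρ 0).length + 8) := NG.add h (NG.const 8)
  have h82 : NG 1 (fun ρ : Fin 1 → List CL => ((ρ 0).length + 8) ^ 2) :=
    NG.congr (NG.mul h8 h8) (fun ρ => by ring)
  exact NG.congr (NG.add (NG.add (NG.mul (NG.mul (NG.const 32) (NG.mul (NG.const 7) h4)) h16)
    (NG.mul (NG.const 512) h82)) (NG.const 512)) (fun ρ => rfl)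

/-- Module T9. -/
theorem t9 (hc : T9cStmt) (hw : T9wStmt) (hL : TLStmt) (h4 : T4Stmt) : T9Stmt := by
  obtain ⟨C, hC1, hC2⟩ := hc
  obtain ⟨W, hW1, hW2⟩ := hw
  refine ⟨fun S => ((List.range (lay S).M).reverse.flatMap fun c => W S (c + 1) ++ C S c) ++ W S 0,
    ?_, ?_⟩
  · intro S m hS hm hT
    constructor
    · refine OKs_append _ _ _ (OKs_flatMap _ _ _ fun c hcm => ?_) (hW1 S m 0 hS hm hT (by omega)).1
      have hcM : c < (lay S).M := by simpa using hcm
      exact OKs_append _ _ _ (hW1 S m (c + 1) hS hm hT (by omega)).1 (hC1 S m c hS hm hT hcM).1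
    · have e0 : dPoly m (W S 0) = _ := (hW1 S m 0 hS hm hT (by omega)).2.symm
      rw [dPoly_append, e0, translate_reverse, translate_append, List.reverse_append,
        translate_flatMap, List.reverse_flatMap, dPoly_flatMap]
      congr 1
      refine List.flatMap_congr fun c hcm => ?_
      have hcM : c < (lay S).M := by simpa using hcm
      simp only [Function.comp_apply]
      rw [translate_append, List.reverse_append, dPoly_append,
        (hC1 S m c hS hm hT hcM).2, (hW1 S m (c + 1) hS hm hT (by omega)).2]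
  · have hm := ng_mOf1
    have hv : SG 1 (fun ρ : Fin 1 → List CL => (ρ 0).filterMap Sum.getLeft?) := sg_first
    have hM : NG 1 (fun ρ : Fin 1 → List CL => (lay (sysA ρ)).M) := ng_M1 h4 hv
    refine (hL 1 _ hm).2.1 _ _ ?_ (hW2 1 _ (fun _ => 0) _ hm (NG.const 0) hv)
    refine ((hL 1 _ hm).2.2.1 (fun ρ => (lay (sysA ρ)).M)
      (fun c ρ => W (sysA ρ) (c + 1) ++ C (sysA ρ) c) hM ?_).2
    have hm' : NG 2 (fun ρ : Fin 2 → List CL => mOf1 ((ρ ∘ Fin.succ) 0).length) := NG.up hm
    have hv' : SG 2 (fun ρ : Fin 2 → List CL => ((ρ ∘ Fin.succ) 0).filterMap Sum.getLeft?) :=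
      SG.up hv
    have hlen : NG 2 (fun ρ : Fin 2 → List CL => (ρ 0).length) := NG.len0
    exact (hL 2 _ hm').2.1 _ _ (hW2 2 _ _ _ hm' (NG.add hlen (NG.const 1)) hv')
      (hC2 2 _ _ _ hm' hlen hv')

end Pool.Agent.Helper2_Pak.H69
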