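import Pool.Agent.Helper2_Pak.StmtsT

/-!
# Module T9w: the words of the walls
-/

namespace Pool.Agent.Helper2_Pak.H69

open Pool.Agent.Helper2_Pack Pool.Agent.Helper53_CookLevin Pool.Agent.Helper53_Chan
open Pool.Agent.Helper91_Pack (NG FG SG)
open Pool.Agent.Helper91_Pack

/-! ### Digits -/

/-- the digits of the numbers which occur in the walls -/
def dg (T a b1 b2 b3 : ℕ) (j : ℕ) : ℕ :=
  if j = 0 then 256 * a + 512 else if j = 1 then b1 else if j = 2 then b2 else if j = 3 then b3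
  else if j = 8 then 256 * T + 1 else 256 * T

/-- the number with these digits -/
lemma dg_val (m T a b1 b2 b3 : ℕ) (x : ℚ)
    (hx : 256 * x = 256 * a + ((b1 : ℚ) - 256 * T) * (1 / 2) ^ m +
      ((b2 : ℚ) - 256 * T) * ((1 / 2) ^ m) ^ 2 + ((b3 : ℚ) - 256 * T) * ((1 / 2) ^ m) ^ 3) :
    x + shift T ((1 / 2) ^ m) = digVal m (dg T a b1 b2 b3) := by
  unfold digVal shift
  generalize ((1 : ℚ) / 2) ^ m = t at *
  simp only [Finset.sum_range_succ, Finset.sum_range_zero, dg]
  norm_num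
  linarith

lemma dg_ok (m T a b1 b2 b3 : ℕ) (ha : 256 * a + 512 < 2 ^ 11 * T + 2 ^ 11 * a + 513)
    (h1 : b1 < 2 ^ m) (h2 : b2 < 2 ^ m) (h3 : b3 < 2 ^ m) (hT : 256 * T + 1 < 2 ^ m) :
    DigOK m (dg T a b1 b2 b3) := by
  refine ⟨by simp [dg], by simp [dg]; omega, fun j h1j h8j => ?_⟩
  interval_cases j <;> simp [dg] <;> omega

lemma dg_ng {k : ℕ} {T a b1 b2 b3 : (Fin k → List CL) → ℕ} (hT : NG k T) (ha : NG k a)
    (h1 : NG k b1) (h2 : NG k b2) (h3 : NG k b3) (j : ℕ) :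
    NG k (fun ρ => dg (T ρ) (a ρ) (b1 ρ) (b2 ρ) (b3 ρ) j) := by
  unfold dg
  by_cases e0 : j = 0
  · simp only [e0, if_true]
    exact NG.add (NG.mul (NG.const 256) ha) (NG.const 512)
  by_cases e1 : j = 1
  · simp only [e1, if_true]
    simpa using h1
  by_cases e2 : j = 2
  · simp only [e2]
    simpa using h2
  by_cases e3 : j = 3
  · simp only [e3]
    simpa using h3
  simp only [e0, e1, e2, e3, if_false]
  by_cases e8 : j = 8
  · simp only [e8, if_true]
    exact NG.add (NG.mul (NG.const 256) hT) (NG.const 1)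
  · simp only [e8, if_false]
    exact NG.mul (NG.const 256) hT

/-- the corners of a recess -/
def recD (T X r b2 b3 : ℕ) : List DP :=
  [(dg T X (256 * T) (256 * T) (256 * T), dg T r (256 * T + 64) (256 * T) (256 * T)),
    (dg T X (256 * T) b2 b3, dg T r (256 * T + 128) (256 * T) (256 * T)),
    (dg T X (256 * T) b2 b3, dg T (r + 1) (256 * T - 128) (256 * T) (256 * T)),
    (dg T X (256 * T) (256 * T) (256 * T), dg T (r + 1) (256 * T - 64) (256 * T) (256 * T))]

/-- a corner with integral coordinates -/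
def ptD (T X r : ℕ) : DP :=
  (dg T X (256 * T) (256 * T) (256 * T), dg T r (256 * T) (256 * T) (256 * T))

lemma ptD_val (m T X r : ℕ) :
    ((X : ℚ) + shift T ((1 / 2) ^ m), (r : ℚ) + shift T ((1 / 2) ^ m)) =
      (digVal m (ptD T X r).1, digVal m (ptD T X r).2) := by
  unfold ptD
  rw [dg_val m T X (256 * T) (256 * T) (256 * T) (X : ℚ) (by push_cast; ring),
    dg_val m T r (256 * T) (256 * T) (256 * T) (r : ℚ) (by push_cast; ring)]

lemma recD_val (m T X r b2 b3 : ℕ) (w : ℚ) (hT : 1 ≤ T)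
    (hw : 256 * w = ((b2 : ℚ) - 256 * T) * ((1 / 2) ^ m) ^ 2 +
      ((b3 : ℚ) - 256 * T) * ((1 / 2) ^ m) ^ 3) :
    translate (shift T ((1 / 2) ^ m)) (recPts ((1 / 2) ^ m) w X r) = dPoly m (recD T X r b2 b3) := by
  have c1 : ((256 * T - 128 : ℕ) : ℚ) = 256 * T - 128 := by
    rw [Nat.cast_sub (by omega)]
    push_cast
    ring
  have c2 : ((256 * T - 64 : ℕ) : ℚ) = 256 * T - 64 := by
    rw [Nat.cast_sub (by omega)]
    push_cast
    ring
  unfold translate recPts dPoly recD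
  simp only [List.map_cons, List.map_nil]
  rw [dg_val m T X (256 * T) (256 * T) (256 * T) (X : ℚ) (by push_cast; ring),
    dg_val m T X (256 * T) b2 b3 ((X : ℚ) + w) (by push_cast; linarith),
    dg_val m T r (256 * T + 64) (256 * T) (256 * T) ((r : ℚ) + (1 / 2) ^ m / 4)
      (by push_cast; ring),
    dg_val m T r (256 * T + 128) (256 * T) (256 * T) ((r : ℚ) + (1 / 2) ^ m / 2)
      (by push_cast; ring),
    dg_val m T (r + 1) (256 * T - 128) (256 * T) (256 * T) ((r : ℚ) + 1 - (1 / 2) ^ m / 2)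
      (by rw [c1]; push_cast; ring),
    dg_val m T (r + 1) (256 * T - 64) (256 * T) (256 * T) ((r : ℚ) + 1 - (1 / 2) ^ m / 4)
      (by rw [c2]; push_cast; ring)]

lemma ptD_ok (m T X r : ℕ) (hT : 256 * T + 1 < 2 ^ m) :
    DigOK m (ptD T X r).1 ∧ DigOK m (ptD T X r).2 :=
  ⟨dg_ok m T X _ _ _ (by omega) (by omega) (by omega) (by omega) hT,
    dg_ok m T r _ _ _ (by omega) (by omega) (by omega) (by omega) hT⟩

lemma recD_ok (m T X r b2 b3 : ℕ) (hT : 256 * T + 256 < 2 ^ m) (h2 : b2 < 2 ^ m)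
    (h3 : b3 < 2 ^ m) : OKs m (recD T X r b2 b3) := by
  intro d hd
  simp only [recD, List.mem_cons, List.not_mem_nil, or_false] at hd
  rcases hd with rfl | rfl | rfl | rfl <;> refine ⟨dg_ok _ _ _ _ _ _ ?_ ?_ ?_ ?_ ?_,
    dg_ok _ _ _ _ _ _ ?_ ?_ ?_ ?_ ?_⟩ <;> omega

/-! ### The lists -/

/-- the first digit of the width of a recess on the right -/
def w1 (G : Lay) (X r : ℕ) : ℕ :=
  (if r < G.N then (G.dr X r).1 else 0) + (if r < G.N then 0 else 2)

/-- the second digit of the width of a recess on the right -/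
def w2 (G : Lay) (X r : ℕ) : ℕ :=
  (if r < G.N then (G.dr X r).2 else 0) + (if r < G.N then 0 else 2)

/-- the digits of the corners of the walls, for `X ≤ M` -/
def DW (G : Lay) (X : ℕ) : List DP :=
  if G.topL X < G.topR X then
    [ptD G.T X (G.topR X)] ++ (List.range (G.topR X - G.topL X)).reverse.flatMap fun i =>
      if (G.topL X + i) % 2 = 1 then
        (recD G.T X (G.topL X + i) (256 * G.T) (256 * G.T - 256)).reverse else []
  else if G.topR X < G.topL X then
    [ptD G.T X (G.topR X)] ++ (List.range (G.topL X - G.topR X)).flatMap fun i =>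
      if (G.topR X + i) % 2 = 1 then
        recD G.T X (G.topR X + i) (256 * (G.T + w1 G X (G.topR X + i)))
          (256 * (G.T + w2 G X (G.topR X + i) + 1)) else []
  else []

lemma dr1_le (G : Lay) (r : ℕ) : ∀ c, (G.dr c r).1 ≤ c
  | 0 => by simp [Lay.dr]
  | c + 1 => by
    have ih := dr1_le G r c
    rw [Lay.dr]
    split_ifs <;> simp <;> omega

lemma dr2_le' (G : Lay) (r : ℕ) : ∀ c, (G.dr c r).2 ≤ c
  | 0 => by simp [Lay.dr]
  | c + 1 => by
    have ih := dr2_le' G r c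
    rw [Lay.dr]
    split_ifs <;> simp <;> omega

lemma w1_le (G : Lay) (X r : ℕ) (hX : X ≤ G.M) : w1 G X r ≤ G.M + 2 := by
  unfold w1
  have := dr1_le G r X
  split_ifs <;> omega

lemma w2_le (G : Lay) (X r : ℕ) (hX : X ≤ G.M) : w2 G X r ≤ G.M + 2 := by
  unfold w2
  have := dr2_le' G r X
  split_ifs <;> omega

lemma T_ge (G : Lay) : G.M + 8 ≤ G.T := by
  unfold Lay.T
  nlinarith [Nat.zero_le (G.n * G.M), Nat.zero_le G.n, Nat.zero_le G.M]

lemma flatMap_oddRows {α : Type} (a b : ℕ) (f : ℕ → List α) :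
    (oddRows a b).flatMap f =
      (List.range (b - a)).flatMap fun i => if (a + i) % 2 = 1 then f (a + i) else [] := by
  unfold oddRows
  rw [List.range'_eq_map_range]
  generalize List.range (b - a) = l
  induction l with
  | nil => rfl
  | cons i l ih =>
    rw [List.map_cons, List.filter_cons, List.flatMap_cons]
    by_cases h : (a + i) % 2 = 1
    · simp only [h, decide_true, if_true, List.flatMap_cons]
      rw [ih]
    · simp only [h, decide_false, Bool.false_eq_true, if_false, List.nil_append]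
      rw [ih]

lemma translate_flatMap {α : Type} (s : ℚ) (l : List α) (f : α → Polygon) :
    translate s (l.flatMap f) = l.flatMap fun a => translate s (f a) := by
  unfold translate
  rw [List.map_flatMap]

lemma dPoly_flatMap {α : Type} (m : ℕ) (l : List α) (f : α → List DP) :
    dPoly m (l.flatMap f) = l.flatMap fun a => dPoly m (f a) := by
  unfold dPoly
  rw [List.map_flatMap]

lemma OKs_flatMap {α : Type} (m : ℕ) (l : List α) (f : α → List DP)
    (h : ∀ a ∈ l, OKs m (f a)) : OKs m (l.flatMap f) := by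
  intro d hd
  obtain ⟨a, ha, hda⟩ := List.mem_flatMap.1 hd
  exact h a ha d hda

lemma OKs_append (m : ℕ) (L L' : List DP) (h : OKs m L) (h' : OKs m L') : OKs m (L ++ L') := by
  intro d hd
  rcases List.mem_append.1 hd with hd | hd
  · exact h d hd
  · exact h' d hd

lemma OKs_reverse (m : ℕ) (L : List DP) (h : OKs m L) : OKs m L.reverse := by
  intro d hd
  exact h d (List.mem_reverse.1 hd)

lemma OKs_nil (m : ℕ) : OKs m [] := by
  intro d hd
  simp at hd

lemma OKs_pt (m T X r : ℕ) (hT : 256 * T + 1 < 2 ^ m) : OKs m [ptD T X r] := by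
  intro d hd
  simp only [List.mem_singleton] at hd
  rw [hd]
  exact ptD_ok m T X r hT

lemma DW_ok (G : Lay) (m X : ℕ) (hX : X ≤ G.M) (hT : 2 ^ 11 * G.T < 2 ^ m) :
    OKs m (DW G X) := by
  have hT1 := T_ge G
  unfold DW
  split_ifs with h1 h2
  · refine OKs_append _ _ _ (OKs_pt _ _ _ _ (by omega)) (OKs_flatMap _ _ _ fun i _ => ?_)
    split_ifs
    · exact OKs_reverse _ _ (recD_ok _ _ _ _ _ _ (by omega) (by omega) (by omega))
    · exact OKs_nil _
  · refine OKs_append _ _ _ (OKs_pt _ _ _ _ (by omega)) (OKs_flatMap _ _ _ fun i _ => ?_)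
    have e1 := w1_le G X (G.topR X + i) hX
    have e2 := w2_le G X (G.topR X + i) hX
    split_ifs
    · exact recD_ok _ _ _ _ _ _ (by omega) (by omega) (by omega)
    · exact OKs_nil _
  · exact OKs_nil _

lemma DW_val (h6 : T6Stmt) (S : SInst) (m X : ℕ) (hS : S.WF) (hX : X ≤ (lay S).M) :
    (translate (shift (lay S).T ((1 / 2) ^ m)) ((lay S).wallPts ((1 / 2) ^ m) X)).reverse =
      dPoly m (DW (lay S) X) := by
  have hT1 := T_ge (lay S)
  have hM : 0 < (lay S).M := by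
    show 0 < 7 * (2 * nT S + 3)
    omega
  unfold Lay.wallPts DW
  set G := lay S with hG
  have hpt : translate (shift G.T ((1 / 2) ^ m)) [((X : ℚ), (G.topR X : ℚ))] =
      dPoly m [ptD G.T X (G.topR X)] := by
    unfold translate dPoly
    simp only [List.map_cons, List.map_nil]
    rw [ptD_val m G.T X (G.topR X)]
  by_cases h1 : G.topL X < G.topR X
  · rw [if_pos h1, if_pos h1]
    have e1 : ∀ L L' : Polygon, translate (shift G.T ((1 / 2) ^ m)) (L ++ L') =
        translate (shift G.T ((1 / 2) ^ m)) L ++ translate (shift G.T ((1 / 2) ^ m)) L' := by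
      intro L L'
      unfold translate
      rw [List.map_append]
    have e2 : ∀ L L' : List DP, dPoly m (L ++ L') = dPoly m L ++ dPoly m L' := by
      intro L L'
      unfold dPoly
      rw [List.map_append]
    rw [e1, e2, hpt, List.reverse_append]
    have e3 : (dPoly m [ptD G.T X (G.topR X)]).reverse = dPoly m [ptD G.T X (G.topR X)] := rfl
    rw [e3]
    congr 1
    rw [flatMap_oddRows, translate_flatMap, dPoly_flatMap, List.reverse_flatMap]
    refine List.flatMap_congr fun i hi => ?_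
    have hw : 256 * (-((1 : ℚ) / 2) ^ m ^ 1 * 0 + -(((1 : ℚ) / 2) ^ m) ^ 3) =
        (((256 * G.T : ℕ) : ℚ) - 256 * G.T) * ((1 / 2) ^ m) ^ 2 +
        (((256 * G.T - 256 : ℕ) : ℚ) - 256 * G.T) * ((1 / 2) ^ m) ^ 3 := by
      rw [Nat.cast_sub (by omega)]
      push_cast
      ring
    simp only [Function.comp_apply]
    split_ifs with hodd
    · have := recD_val m G.T X (G.topL X + i) (256 * G.T) (256 * G.T - 256)
        (-(((1 : ℚ) / 2) ^ m) ^ 3) (by omega) (by linarith [hw])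
      rw [this]
      unfold dPoly
      rw [List.map_reverse]
    · rfl
  · rw [if_neg h1, if_neg h1]
    by_cases h2 : G.topR X < G.topL X
    · rw [if_pos h2, if_pos h2]
      have e1 : ∀ L L' : Polygon, translate (shift G.T ((1 / 2) ^ m)) (L ++ L') =
          translate (shift G.T ((1 / 2) ^ m)) L ++ translate (shift G.T ((1 / 2) ^ m)) L' := by
        intro L L'
        unfold translate
        rw [List.map_append]
      have e2 : ∀ L L' : List DP, dPoly m (L ++ L') = dPoly m L ++ dPoly m L' := by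
        intro L L'
        unfold dPoly
        rw [List.map_append]
      have e4 : ∀ L : Polygon, (translate (shift G.T ((1 / 2) ^ m)) L.reverse).reverse =
          translate (shift G.T ((1 / 2) ^ m)) L := by
        intro L
        unfold translate
        rw [List.map_reverse, List.reverse_reverse]
      rw [e1, e2, hpt, List.reverse_append, e4]
      have e3 : (dPoly m [ptD G.T X (G.topR X)]).reverse = dPoly m [ptD G.T X (G.topR X)] := rfl
      rw [e3]
      congr 1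
      rw [flatMap_oddRows, translate_flatMap, dPoly_flatMap]
      refine List.flatMap_congr fun i hi => ?_
      have hi' : i < G.topL X - G.topR X := List.mem_range.1 hi
      have hX0 : 0 < X := by
        rcases Nat.eq_zero_or_pos X with h | h
        · rw [h] at h2
          unfold Lay.topL at h2
          simp at h2
        · exact h
      have hpres : G.pres (X - 1) (G.topR X + i) = true := by
        have h3 : G.topL X = G.top (X - 1) := by
          unfold Lay.topL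
          rw [if_neg (by omega)]
        unfold Lay.pres
        simp only [Bool.and_eq_true, decide_eq_true_eq]
        refine ⟨by omega, by omega⟩
      have hnp : G.pres X (G.topR X + i) = false := by
        unfold Lay.pres
        by_cases hXM : X < G.M
        · have h3 : G.topR X = G.top X := by
            unfold Lay.topR
            rw [if_pos hXM]
          simp only [Bool.and_eq_false_iff, decide_eq_false_iff_not]
          right
          omega
        · simp [hXM]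
      have hwall : G.wallR X (G.topR X + i) = true := by
        unfold Lay.wallR
        simp [hX0, hpres, hnp]
      obtain ⟨-, -, t3, t4⟩ := h6 S ((1 / 2) ^ m) 0 hS hM
      have hval : (G.topR X + i) % 2 = 1 → 256 * G.rw ((1 / 2 : ℚ) ^ m) X (G.topR X + i) =
          (((256 * (G.T + w1 G X (G.topR X + i)) : ℕ) : ℚ) - 256 * G.T) * ((1 / 2) ^ m) ^ 2 +
          (((256 * (G.T + w2 G X (G.topR X + i) + 1) : ℕ) : ℚ) - 256 * G.T) *
            ((1 / 2) ^ m) ^ 3 := by
        intro hodd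
        by_cases hr : G.topR X + i < G.N
        · rw [t4 X _ hX hr]
          unfold w1 w2
          simp only [hr, if_true]
          push_cast
          ring
        · rw [t3 X _ hX (not_lt.1 hr) hwall hodd]
          unfold w1 w2
          simp only [hr, if_false]
          push_cast
          ring
      split_ifs with hodd
      · exact recD_val m G.T X (G.topR X + i) _ _ _ (by omega) (hval hodd)
      · rfl
    · rw [if_neg h2, if_neg h2]
      rfl

/-! ### Generators -/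

section gen

variable {k : ℕ} {m X : (Fin k → List CL) → ℕ} {v : (Fin k → List CL) → List SLetter}

lemma FG.ng {f : (Fin k → List CL) → ℕ} (hf : FG k f) : NG k f :=
  hf (fun a _ => List.replicate a uu) (fun _ => PGen.const _)

lemma ng_N1 (h4 : T4Stmt) (hv : SG k v) : NG k (fun ρ => (lay (sysOfWord (v ρ))).N) :=
  NG.congr (NG.add (NG.mul (NG.const 2) (h4 k v (fun _ => 0) hv (NG.const 0)).1) (NG.const 1))
    (fun _ => rfl)

lemma ng_M1 (h4 : T4Stmt) (hv : SG k v) : NG k (fun ρ => (lay (sysOfWord (v ρ))).M) :=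
  (h4 k v (fun _ => 0) hv (NG.const 0)).2.1

lemma ng_T1 (h4 : T4Stmt) (hv : SG k v) : NG k (fun ρ => (lay (sysOfWord (v ρ))).T) :=
  NG.congr (NG.add (NG.mul (NG.mul (NG.const 4) (NG.add (ng_M1 h4 hv) (NG.const 1)))
    (NG.add (h4 k v (fun _ => 0) hv (NG.const 0)).1 (NG.const 1))) (NG.const 8)) (fun _ => rfl)

lemma ng_top1 (h4 : T4Stmt) (hv : SG k v) (hX : NG k X) :
    NG k (fun ρ => (lay (sysOfWord (v ρ))).top (X ρ)) :=
  NG.congr (NG.add (ng_N1 h4 hv) (FG.ng (FG.map Kind.h (h4 k v X hv hX).2.2.1))) (fun _ => rfl)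

lemma ng_topR (h4 : T4Stmt) (hv : SG k v) (hX : NG k X) :
    NG k (fun ρ => (lay (sysOfWord (v ρ))).topR (X ρ)) :=
  NG.congr (NG.ite (tlt hX (ng_M1 h4 hv)) (ng_top1 h4 hv hX) (NG.const 0)) (fun _ => rfl)

lemma ng_topL (h4 : T4Stmt) (hv : SG k v) (hX : NG k X) :
    NG k (fun ρ => (lay (sysOfWord (v ρ))).topL (X ρ)) :=
  NG.congr (NG.ite (teq hX (NG.const 0)) (NG.const 0)
    (ng_top1 h4 hv (NG.sub hX (NG.const 1)))) (fun _ => rfl)

end gen

/-- a list of a fixed length -/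
lemma wg_rec (hL : TLStmt) {k : ℕ} {m T X r b2 b3 : (Fin k → List CL) → ℕ} (hm : NG k m)
    (hT : NG k T) (hX : NG k X) (hr : NG k r) (h2 : NG k b2) (h3 : NG k b3) :
    WG k m (fun ρ => recD (T ρ) (X ρ) (r ρ) (b2 ρ) (b3 ρ)) ∧
      WG k m (fun ρ => (recD (T ρ) (X ρ) (r ρ) (b2 ρ) (b3 ρ)).reverse) := by
  have hT' : NG k (fun ρ => 256 * T ρ) := NG.mul (NG.const 256) hT
  have hr1 : NG k (fun ρ => r ρ + 1) := NG.add hr (NG.const 1)
  have g1 : ∀ j, j < 9 → NG k (fun ρ =>
      dg (T ρ) (X ρ) (256 * T ρ) (256 * T ρ) (256 * T ρ) j) :=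
    fun j _ => dg_ng hT hX hT' hT' hT' j
  have g2 : ∀ j, j < 9 → NG k (fun ρ => dg (T ρ) (X ρ) (256 * T ρ) (b2 ρ) (b3 ρ) j) :=
    fun j _ => dg_ng hT hX hT' h2 h3 j
  have g3 : ∀ j, j < 9 → NG k (fun ρ =>
      dg (T ρ) (r ρ) (256 * T ρ + 64) (256 * T ρ) (256 * T ρ) j) :=
    fun j _ => dg_ng hT hr (NG.add hT' (NG.const 64)) hT' hT' j
  have g4 : ∀ j, j < 9 → NG k (fun ρ =>
      dg (T ρ) (r ρ) (256 * T ρ + 128) (256 * T ρ) (256 * T ρ) j) :=
    fun j _ => dg_ng hT hr (NG.add hT' (NG.const 128)) hT' hT' j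
  have g5 : ∀ j, j < 9 → NG k (fun ρ =>
      dg (T ρ) (r ρ + 1) (256 * T ρ - 128) (256 * T ρ) (256 * T ρ) j) :=
    fun j _ => dg_ng hT hr1 (NG.sub hT' (NG.const 128)) hT' hT' j
  have g6 : ∀ j, j < 9 → NG k (fun ρ =>
      dg (T ρ) (r ρ + 1) (256 * T ρ - 64) (256 * T ρ) (256 * T ρ) j) :=
    fun j _ => dg_ng hT hr1 (NG.sub hT' (NG.const 64)) hT' hT' j
  constructor
  · refine (hL k m hm).1 [fun ρ => (dg (T ρ) (X ρ) (256 * T ρ) (256 * T ρ) (256 * T ρ),
        dg (T ρ) (r ρ) (256 * T ρ + 64) (256 * T ρ) (256 * T ρ)),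
      fun ρ => (dg (T ρ) (X ρ) (256 * T ρ) (b2 ρ) (b3 ρ),
        dg (T ρ) (r ρ) (256 * T ρ + 128) (256 * T ρ) (256 * T ρ)),
      fun ρ => (dg (T ρ) (X ρ) (256 * T ρ) (b2 ρ) (b3 ρ),
        dg (T ρ) (r ρ + 1) (256 * T ρ - 128) (256 * T ρ) (256 * T ρ)),
      fun ρ => (dg (T ρ) (X ρ) (256 * T ρ) (256 * T ρ) (256 * T ρ),
        dg (T ρ) (r ρ + 1) (256 * T ρ - 64) (256 * T ρ) (256 * T ρ))] ?_
    intro p hp j hj
    simp only [List.mem_cons, List.not_mem_nil, or_false] at hp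
    rcases hp with rfl | rfl | rfl | rfl
    · exact ⟨g1 j hj, g3 j hj⟩
    · exact ⟨g2 j hj, g4 j hj⟩
    · exact ⟨g2 j hj, g5 j hj⟩
    · exact ⟨g1 j hj, g6 j hj⟩
  · refine (hL k m hm).1 [fun ρ => (dg (T ρ) (X ρ) (256 * T ρ) (256 * T ρ) (256 * T ρ),
        dg (T ρ) (r ρ + 1) (256 * T ρ - 64) (256 * T ρ) (256 * T ρ)),
      fun ρ => (dg (T ρ) (X ρ) (256 * T ρ) (b2 ρ) (b3 ρ),
        dg (T ρ) (r ρ + 1) (256 * T ρ - 128) (256 * T ρ) (256 * T ρ)),
      fun ρ => (dg (T ρ) (X ρ) (256 * T ρ) (b2 ρ) (b3 ρ),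
        dg (T ρ) (r ρ) (256 * T ρ + 128) (256 * T ρ) (256 * T ρ)),
      fun ρ => (dg (T ρ) (X ρ) (256 * T ρ) (256 * T ρ) (256 * T ρ),
        dg (T ρ) (r ρ) (256 * T ρ + 64) (256 * T ρ) (256 * T ρ))] ?_
    intro p hp j hj
    simp only [List.mem_cons, List.not_mem_nil, or_false] at hp
    rcases hp with rfl | rfl | rfl | rfl
    · exact ⟨g1 j hj, g6 j hj⟩
    · exact ⟨g2 j hj, g5 j hj⟩
    · exact ⟨g2 j hj, g4 j hj⟩
    · exact ⟨g1 j hj, g3 j hj⟩

lemma wg_nil (hL : TLStmt) {k : ℕ} {m : (Fin k → List CL) → ℕ} (hm : NG k m) :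
    WG k m (fun _ => []) :=
  (hL k m hm).1 [] (by simp)

lemma wg_pt (hL : TLStmt) {k : ℕ} {m T X r : (Fin k → List CL) → ℕ} (hm : NG k m)
    (hT : NG k T) (hX : NG k X) (hr : NG k r) :
    WG k m (fun ρ => [ptD (T ρ) (X ρ) (r ρ)]) := by
  have hT' : NG k (fun ρ => 256 * T ρ) := NG.mul (NG.const 256) hT
  refine (hL k m hm).1 [fun ρ => ptD (T ρ) (X ρ) (r ρ)] ?_
  intro p hp j hj
  simp only [List.mem_singleton] at hp
  subst hp
  exact ⟨dg_ng hT hX hT' hT' hT' j, dg_ng hT hr hT' hT' hT' j⟩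

/-- the generator of the walls -/
lemma wg_DW (h4 : T4Stmt) (h5 : T5Stmt) (hL : TLStmt) {k : ℕ} {m X : (Fin k → List CL) → ℕ}
    {v : (Fin k → List CL) → List SLetter} (hm : NG k m) (hX : NG k X) (hv : SG k v)
    (hXM : ∀ ρ, X ρ ≤ (lay (sysOfWord (v ρ))).M) :
    WG k m (fun ρ => DW (lay (sysOfWord (v ρ))) (X ρ)) := by
  have hT := ng_T1 h4 hv
  have hR := ng_topR h4 hv hX
  have hLt := ng_topL h4 hv hX
  have hv' := SG.up hv
  have hX' : NG (k + 1) (fun ρ => X (ρ ∘ Fin.succ)) := NG.up hX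
  have hm' : NG (k + 1) (fun ρ => m (ρ ∘ Fin.succ)) := NG.up hm
  have hT' : NG (k + 1) (fun ρ => (lay (sysOfWord (v (ρ ∘ Fin.succ)))).T) := NG.up hT
  have hR' : NG (k + 1) (fun ρ => (lay (sysOfWord (v (ρ ∘ Fin.succ)))).topR
      (X (ρ ∘ Fin.succ))) := NG.up hR
  have hL' : NG (k + 1) (fun ρ => (lay (sysOfWord (v (ρ ∘ Fin.succ)))).topL
      (X (ρ ∘ Fin.succ))) := NG.up hLt
  have hlen : NG (k + 1) (fun ρ : Fin (k + 1) → List CL => (ρ 0).length) := NG.len0
  have hN' : NG (k + 1) (fun ρ => (lay (sysOfWord (v (ρ ∘ Fin.succ)))).N) := NG.up (ng_N1 h4 hv)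
  -- rows
  have hrL : NG (k + 1) (fun ρ => (lay (sysOfWord (v (ρ ∘ Fin.succ)))).topL
      (X (ρ ∘ Fin.succ)) + (ρ 0).length) := NG.add hL' hlen
  have hrR : NG (k + 1) (fun ρ => (lay (sysOfWord (v (ρ ∘ Fin.succ)))).topR
      (X (ρ ∘ Fin.succ)) + (ρ 0).length) := NG.add hR' hlen
  obtain ⟨d1, d2, -, -⟩ := h5 (k + 1) (fun ρ => v (ρ ∘ Fin.succ)) (fun ρ => X (ρ ∘ Fin.succ))
    (fun ρ => (lay (sysOfWord (v (ρ ∘ Fin.succ)))).topR (X (ρ ∘ Fin.succ)) + (ρ 0).length)
    hv' hX' hrR (fun ρ => hXM _)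
  have hw1 : NG (k + 1) (fun ρ => w1 (lay (sysOfWord (v (ρ ∘ Fin.succ)))) (X (ρ ∘ Fin.succ))
      ((lay (sysOfWord (v (ρ ∘ Fin.succ)))).topR (X (ρ ∘ Fin.succ)) + (ρ 0).length)) :=
    NG.add d1 (NG.ite (tlt hrR hN') (NG.const 0) (NG.const 2))
  have hw2 : NG (k + 1) (fun ρ => w2 (lay (sysOfWord (v (ρ ∘ Fin.succ)))) (X (ρ ∘ Fin.succ))
      ((lay (sysOfWord (v (ρ ∘ Fin.succ)))).topR (X (ρ ∘ Fin.succ)) + (ρ 0).length)) :=
    NG.add d2 (NG.ite (tlt hrR hN') (NG.const 0) (NG.const 2))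
  have h256 : NG (k + 1) (fun ρ => 256 * (lay (sysOfWord (v (ρ ∘ Fin.succ)))).T) :=
    NG.mul (NG.const 256) hT'
  -- first case
  have c1 : WG k m (fun ρ => [ptD (lay (sysOfWord (v ρ))).T (X ρ)
      ((lay (sysOfWord (v ρ))).topR (X ρ))] ++
      (List.range ((lay (sysOfWord (v ρ))).topR (X ρ) -
        (lay (sysOfWord (v ρ))).topL (X ρ))).reverse.flatMap fun i =>
      if ((lay (sysOfWord (v ρ))).topL (X ρ) + i) % 2 = 1 then
        (recD (lay (sysOfWord (v ρ))).T (X ρ) ((lay (sysOfWord (v ρ))).topL (X ρ) + i)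
          (256 * (lay (sysOfWord (v ρ))).T) (256 * (lay (sysOfWord (v ρ))).T - 256)).reverse
      else []) := by
    refine (hL k m hm).2.1 _ _ (wg_pt hL hm hT hX hR) ?_
    refine ((hL k m hm).2.2.1 (fun ρ => (lay (sysOfWord (v ρ))).topR (X ρ) -
        (lay (sysOfWord (v ρ))).topL (X ρ)) (fun i ρ =>
      if ((lay (sysOfWord (v ρ))).topL (X ρ) + i) % 2 = 1 then
        (recD (lay (sysOfWord (v ρ))).T (X ρ) ((lay (sysOfWord (v ρ))).topL (X ρ) + i)
          (256 * (lay (sysOfWord (v ρ))).T) (256 * (lay (sysOfWord (v ρ))).T - 256)).reverse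
      else []) (NG.sub hR hLt) ?_).2
    refine (hL (k + 1) _ hm').2.2.2.2 _ _ _ (teq (NG.mod hrL (NG.const 2)) (NG.const 1)) ?_
      (wg_nil hL hm')
    exact (wg_rec hL hm' hT' hX' hrL h256 (NG.sub h256 (NG.const 256))).2
  have c2 : WG k m (fun ρ => [ptD (lay (sysOfWord (v ρ))).T (X ρ)
      ((lay (sysOfWord (v ρ))).topR (X ρ))] ++
      (List.range ((lay (sysOfWord (v ρ))).topL (X ρ) -
        (lay (sysOfWord (v ρ))).topR (X ρ))).flatMap fun i =>
      if ((lay (sysOfWord (v ρ))).topR (X ρ) + i) % 2 = 1 then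
        recD (lay (sysOfWord (v ρ))).T (X ρ) ((lay (sysOfWord (v ρ))).topR (X ρ) + i)
          (256 * ((lay (sysOfWord (v ρ))).T + w1 (lay (sysOfWord (v ρ))) (X ρ)
            ((lay (sysOfWord (v ρ))).topR (X ρ) + i)))
          (256 * ((lay (sysOfWord (v ρ))).T + w2 (lay (sysOfWord (v ρ))) (X ρ)
            ((lay (sysOfWord (v ρ))).topR (X ρ) + i) + 1))
      else []) := by
    refine (hL k m hm).2.1 _ _ (wg_pt hL hm hT hX hR) ?_
    refine ((hL k m hm).2.2.1 (fun ρ => (lay (sysOfWord (v ρ))).topL (X ρ) -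
        (lay (sysOfWord (v ρ))).topR (X ρ)) (fun i ρ =>
      if ((lay (sysOfWord (v ρ))).topR (X ρ) + i) % 2 = 1 then
        recD (lay (sysOfWord (v ρ))).T (X ρ) ((lay (sysOfWord (v ρ))).topR (X ρ) + i)
          (256 * ((lay (sysOfWord (v ρ))).T + w1 (lay (sysOfWord (v ρ))) (X ρ)
            ((lay (sysOfWord (v ρ))).topR (X ρ) + i)))
          (256 * ((lay (sysOfWord (v ρ))).T + w2 (lay (sysOfWord (v ρ))) (X ρ)
            ((lay (sysOfWord (v ρ))).topR (X ρ) + i) + 1))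
      else []) (NG.sub hLt hR) ?_).1
    refine (hL (k + 1) _ hm').2.2.2.2 _ _ _ (teq (NG.mod hrR (NG.const 2)) (NG.const 1)) ?_
      (wg_nil hL hm')
    exact (wg_rec hL hm' hT' hX' hrR (NG.mul (NG.const 256) (NG.add hT' hw1))
      (NG.mul (NG.const 256) (NG.add (NG.add hT' hw2) (NG.const 1)))).1
  exact (hL k m hm).2.2.2.2 _ _ _ (tlt hLt hR) c1
    ((hL k m hm).2.2.2.2 _ _ _ (tlt hR hLt) c2 (wg_nil hL hm))

/-- Module T9w. -/
theorem t9w (h4 : T4Stmt) (h5 : T5Stmt) (h6 : T6Stmt) (hL : TLStmt) : T9wStmt := by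
  refine ⟨fun S X => DW (lay S) (min X (lay S).M), ?_, ?_⟩
  · intro S m X hS _ hT hX
    dsimp only
    rw [min_eq_left hX]
    exact ⟨DW_ok (lay S) m X hX hT, DW_val h6 S m X hS hX⟩
  · intro k m X v hm hX hv
    have hmin : NG k (fun ρ => min (X ρ) (lay (sysOfWord (v ρ))).M) :=
      NG.congr (NG.sub hX (NG.sub hX (ng_M1 h4 hv))) (fun ρ => by omega)
    exact wg_DW h4 h5 hL hm hmin hv (fun ρ => min_le_right _ _)

end Pool.Agent.Helper2_Pak.H69
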